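import Pool.Agent.H50.TV.Eig

/-!
# The Shimura map controls the twisted central values of eigenforms

The proofs are those of `Pool.Agent.K4H67.TV`, for the structure `Eigen`.
-/

set_option autoImplicit false

open Complex Filter Topology Matrix.SpecialLinearGroup MatrixGroups Finset DirichletCharacter

namespace Pool.Agent.H50.TV

open Pool.Agent.TH133.SH Pool.Agent.K4H67.TV

variable {N : ℕ} {a : ℕ → ℤ} {Ω₁ Ω₂ : ℂ}

/-- Logarithmic growth of the Shimura map controls the boundary values. -/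
lemma boundary_growth (hN : 1 ≤ N) (ha : Eigen N a) (hb : IsBasis N a Ω₁ Ω₂) {κ C : ℝ}
    (hC : 0 < C)
    (h : ∀ p q r s : ℤ, p * s - q * r = 1 → (N : ℤ) ∣ r → r ≠ 0 →
      CoordBound a Ω₁ Ω₂ p q r s (C * (N : ℝ) ^ κ * (1 + Real.log |(r : ℝ)|)))
    {d : ℕ} (hd : 0 < d) (hdN : d.Coprime N) (b : ℕ) (hbd : b.Coprime d) :
    |(Uv a ((b : ℚ) / d)).re - (Uv a 0).re| ≤
      4 * C * (N : ℝ) ^ (κ + 1) * (1 + Real.log d) * Ω₁.re ∧
    |(Uv a ((b : ℚ) / d)).im - (Uv a 0).im| ≤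
      4 * C * (N : ℝ) ^ (κ + 1) * (1 + Real.log d) * Ω₂.im := by
  have hf := ha.toIsForm
  have hN0 : (0 : ℝ) < N := by exact_mod_cast hN
  have hN1 : (1 : ℝ) ≤ N := by exact_mod_cast hN
  have hd1 : (1 : ℝ) ≤ d := by exact_mod_cast hd
  have hlogd : 0 ≤ Real.log d := Real.log_nonneg hd1
  have h₁ := hb.re₁
  have h₂ := hb.im₂
  obtain ⟨g, hg, h1, h2, h3⟩ := exists_gamma (b : ℤ) hd (Nat.isCoprime_iff_coprime.2 hbd) hdN hN
  have hd0 : g 1 1 ≠ 0 := by rw [h2]; exact_mod_cast hd.ne'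
  have hH := Hs_eq_sub hN hf hg hd0
  rw [h1, h2] at hH
  push_cast at hH
  rw [← Complex.sub_re, ← Complex.sub_im, ← hH]
  by_cases hr0 : g 1 0 = 0
  · have e1 : Hs a g = 0 := by
      have e2 := (isCuspHom hf Complex.reLm).zero_of_lower (g := g) hr0
      have e3 := (isCuspHom hf Complex.imLm).zero_of_lower (g := g) hr0
      exact Complex.ext e2 e3
    rw [e1]
    simp only [Complex.zero_re, Complex.zero_im, abs_zero]
    constructor <;> positivity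
  · obtain ⟨m, n, hmn⟩ := lattice hf hb (z := Hs a g) ⟨g, hg, rfl⟩
    have h4 := h (g 0 0) (g 0 1) (g 1 0) (g 1 1) (det_eq g) hg hr0 m n hmn
    have h5 := re_im_le hb hmn h4.1 h4.2
    have h6 : Real.log |((g 1 0 : ℤ) : ℝ)| ≤ N + Real.log d := by
      have h7 : |((g 1 0 : ℤ) : ℝ)| ≤ N * d := by exact_mod_cast h3
      have h8 : 0 < |((g 1 0 : ℤ) : ℝ)| := by
        rw [abs_pos]
        exact_mod_cast hr0
      refine (Real.log_le_log h8 h7).trans ?_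
      rw [Real.log_mul hN0.ne' (by positivity)]
      have := Real.log_le_self hN0.le
      linarith
    have h9 : 2 * (C * (N : ℝ) ^ κ * (1 + Real.log |((g 1 0 : ℤ) : ℝ)|)) ≤
        4 * C * (N : ℝ) ^ (κ + 1) * (1 + Real.log d) := by
      rw [Real.rpow_add hN0, Real.rpow_one]
      have h10 : 1 + Real.log |((g 1 0 : ℤ) : ℝ)| ≤ 2 * N * (1 + Real.log d) := by nlinarith
      calc 2 * (C * (N : ℝ) ^ κ * (1 + Real.log |((g 1 0 : ℤ) : ℝ)|))
          ≤ 2 * (C * (N : ℝ) ^ κ * (2 * N * (1 + Real.log d))) := by gcongr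
        _ = _ := by ring
    exact ⟨h5.1.trans (mul_le_mul_of_nonneg_right h9 h₁.le),
      h5.2.trans (mul_le_mul_of_nonneg_right h9 h₂.le)⟩

/-- The bound for `L(f, 1)`. -/
lemma untwisted (hN : 1 ≤ N) (ha : Eigen N a) (hb : IsBasis N a Ω₁ Ω₂) {κ C : ℝ}
    (hC : 0 < C)
    (h : ∀ p q r s : ℤ, p * s - q * r = 1 → (N : ℤ) ∣ r → r ≠ 0 →
      CoordBound a Ω₁ Ω₂ p q r s (C * (N : ℝ) ^ κ * (1 + Real.log |(r : ℝ)|))) :
    ‖Uv a 0‖ ≤ 24 * C * (N : ℝ) ^ (κ + 3) * Ω₁.re := by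
  have hf := ha.toIsForm
  have hN0 : (0 : ℝ) < N := by exact_mod_cast hN
  have hN1 : (1 : ℝ) ≤ N := by exact_mod_cast hN
  have h₁ := hb.re₁
  obtain ⟨ℓ, hℓ, hℓN1⟩ := Nat.exists_prime_and_dvd (n := N + 1) (by omega)
  have hℓN : ¬ ℓ ∣ N := fun hc => by
    have h1 : ℓ ∣ 1 := (Nat.dvd_add_right hc).1 hℓN1
    exact hℓ.one_lt.ne' (Nat.dvd_one.1 h1)
  have hℓc : ℓ.Coprime N := (Nat.Prime.coprime_iff_not_dvd hℓ).2 hℓN
  have hℓle : ℓ ≤ N + 1 := Nat.le_of_dvd (by omega) hℓN1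
  have hℓr : (ℓ : ℝ) ≤ 2 * N := by
    have : (ℓ : ℝ) ≤ N + 1 := by exact_mod_cast hℓle
    linarith
  have hℓ0 : (0 : ℝ) < ℓ := by exact_mod_cast hℓ.pos
  have h1 := Uv_hecke hN ha hℓ hℓN 0 (m := 1) one_pos (Nat.coprime_one_left N)
  have e0 : ((0 : ℕ) : ℚ) / ((1 : ℕ) : ℚ) = 0 := by norm_num
  rw [e0, mul_zero] at h1
  simp only [zero_add] at h1
  have h2 := congrArg Complex.re h1
  have e1 : ∀ z : ℂ, ((a ℓ : ℂ) * z).re = (a ℓ : ℝ) * z.re := fun z => by simp [Complex.mul_re]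
  rw [Complex.add_re, Complex.re_sum, e1] at h2
  set u : ℝ := (Uv a 0).re with hu
  have h3 : ((ℓ : ℝ) + 1 - a ℓ) * u = ∑ j ∈ range ℓ, (u - (Uv a ((j : ℚ) / ℓ)).re) := by
    rw [sum_sub_distrib, sum_const, card_range, nsmul_eq_mul]
    linarith
  set E : ℝ := 4 * C * (N : ℝ) ^ (κ + 1) * (1 + Real.log ℓ) * Ω₁.re with hE
  have hE0 : 0 ≤ E := by
    have : 0 ≤ Real.log ℓ := Real.log_natCast_nonneg ℓ
    positivity
  have h4 : ∀ j ∈ range ℓ, |u - (Uv a ((j : ℚ) / ℓ)).re| ≤ E := by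
    intro j hj
    rcases Nat.eq_zero_or_pos j with rfl | hj0
    · simp only [Nat.cast_zero, zero_div, ← hu, sub_self, abs_zero]
      exact hE0
    · rw [abs_sub_comm]
      exact (boundary_growth hN ha hb hC h hℓ.pos hℓc j
        ((Nat.coprime_of_lt_prime hj0.ne' (mem_range.1 hj) hℓ).symm)).1
  have h5 : |((ℓ : ℝ) + 1 - a ℓ) * u| ≤ ℓ * E := by
    rw [h3]
    refine (abs_sum_le_sum_abs _ _).trans ((sum_le_sum h4).trans ?_)
    simp
  have h6 : (1 : ℝ) ≤ |(ℓ : ℝ) + 1 - a ℓ| := by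
    have h7 : ((ℓ : ℤ) + 1 - a ℓ) ≠ 0 := by
      have := ne_add_one hN ha hℓ hℓN
      intro h8
      apply this
      linarith
    exact_mod_cast Int.one_le_abs h7
  have h7 : |u| ≤ ℓ * E := by
    rw [abs_mul] at h5
    have := abs_nonneg u
    nlinarith
  have h8 : ‖Uv a 0‖ = |u| := by
    have h9 : Uv a 0 = (u : ℂ) := by
      apply Complex.ext
      · simp [hu]
      · rw [Uv_zero_im hN hf]
        simp
    rw [h9, Complex.norm_real, Real.norm_eq_abs]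
  rw [h8]
  refine h7.trans ?_
  have h9 : 1 + Real.log ℓ ≤ 3 * N := by
    have h10 := Real.log_le_self hℓ0.le
    linarith
  have h11 : (N : ℝ) ^ (κ + 3) = (N : ℝ) ^ (κ + 1) * ((N : ℝ) * N) := by
    rw [show κ + 3 = κ + 1 + 1 + 1 by ring, Real.rpow_add hN0 (κ + 1 + 1), Real.rpow_add hN0 (κ + 1),
      Real.rpow_one]
    ring
  rw [h11, hE]
  calc (ℓ : ℝ) * (4 * C * (N : ℝ) ^ (κ + 1) * (1 + Real.log ℓ) * Ω₁.re)
      ≤ (2 * N) * (4 * C * (N : ℝ) ^ (κ + 1) * (3 * N) * Ω₁.re) := by gcongr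
    _ = _ := by ring

/-- Logarithmic growth of the Shimura map controls the central values. -/
theorem values_growth (hN : 1 ≤ N) (ha : Eigen N a) (hb : IsBasis N a Ω₁ Ω₂) {κ C : ℝ}
    (hC : 0 < C)
    (hg : ∀ p q r s : ℤ, p * s - q * r = 1 → (N : ℤ) ∣ r → r ≠ 0 →
      CoordBound a Ω₁ Ω₂ p q r s (C * (N : ℝ) ^ κ * (1 + Real.log |(r : ℝ)|)))
    {d : ℕ} (hd : 1 ≤ d) (hdN : d.Coprime N) {χ : DirichletCharacter ℂ d} (hχ : χ.IsPrimitive)
    {L : ℂ} (hL : HasLVal a χ L) :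
    (χ.Even → ‖L‖ ≤ 24 * C * (N : ℝ) ^ (κ + 3) * (√(d : ℝ) * (1 + Real.log d)) * Ω₁.re) ∧
    (χ.Odd → ‖L‖ ≤ 24 * C * (N : ℝ) ^ (κ + 3) * (√(d : ℝ) * (1 + Real.log d)) * Ω₂.im) := by
  have hf := ha.toIsForm
  have : NeZero d := ⟨by omega⟩
  have hN0 : (0 : ℝ) < N := by exact_mod_cast hN
  have hN1 : (1 : ℝ) ≤ N := by exact_mod_cast hN
  have h₁ := hb.re₁
  have h₂ := hb.im₂
  have h1 := (lval hN hf hdN hχ).1 hL
  have h2 : √(d : ℝ) * ‖L‖ = ‖Sm (Uv a) d χ⁻¹‖ := by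
    rw [← h1, norm_mul, norm_gauss (prim_inv hχ)]
  have hd0 : (0 : ℝ) < d := by exact_mod_cast hd
  have hd1 : (1 : ℝ) ≤ d := by exact_mod_cast hd
  have hlogd : 0 ≤ Real.log d := Real.log_nonneg hd1
  have hsq : 0 < √(d : ℝ) := Real.sqrt_pos.2 hd0
  have hsq2 : √(d : ℝ) * √(d : ℝ) = d := Real.mul_self_sqrt hd0.le
  rcases Nat.lt_or_ge 1 d with hd2 | hd2
  · -- nontrivial conductor
    have hχ1 : χ⁻¹ ≠ 1 := by
      intro hc
      have h3 := prim_inv hχ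
      rw [hc, isPrimitive_def, conductor_one] at h3
      omega
    have hsum0 : ∑ b : ZMod d, χ⁻¹ b = 0 := MulChar.sum_eq_zero_of_ne_one hχ1
    have hpow : (N : ℝ) ^ (κ + 1) ≤ (N : ℝ) ^ (κ + 3) :=
      Real.rpow_le_rpow_of_exponent_le hN1 (by linarith)
    have main : ∀ (V : ℚ → ℂ) (E : ℝ), 0 ≤ E →
        (∀ b : ℕ, b.Coprime d → ‖V ((b : ℚ) / d) - V 0‖ ≤ E) → ‖Sm V d χ⁻¹‖ ≤ d * E := by
      intro V E hE hV
      have h3 : Sm V d χ⁻¹ = ∑ b : ZMod d, χ⁻¹ b * (V ((b.val : ℚ) / d) - V 0) := by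
        unfold Sm
        simp_rw [mul_sub]
        rw [sum_sub_distrib, ← sum_mul, hsum0, zero_mul, sub_zero]
      rw [h3]
      refine (norm_sum_le _ _).trans ?_
      have h4 : ∀ b ∈ (univ : Finset (ZMod d)), ‖χ⁻¹ b * (V ((b.val : ℚ) / d) - V 0)‖ ≤ E := by
        intro b _
        by_cases hbu : IsUnit b
        · have h5 : b.val.Coprime d := by
            rw [← ZMod.isUnit_iff_coprime, ZMod.natCast_zmod_val]
            exact hbu
          rw [norm_mul]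
          calc ‖χ⁻¹ b‖ * ‖V ((b.val : ℚ) / d) - V 0‖ ≤ 1 * E :=
                mul_le_mul (χ⁻¹.norm_le_one b) (hV _ h5) (norm_nonneg _) zero_le_one
            _ = E := one_mul E
        · rw [MulChar.map_nonunit _ hbu, zero_mul, norm_zero]
          exact hE
      refine (sum_le_sum h4).trans ?_
      rw [sum_const, card_univ, ZMod.card, nsmul_eq_mul]
    have fin : ∀ Ω : ℝ, 0 < Ω → √(d : ℝ) * ‖L‖ ≤
        d * (4 * C * (N : ℝ) ^ (κ + 1) * (1 + Real.log d) * Ω) →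
        ‖L‖ ≤ 24 * C * (N : ℝ) ^ (κ + 3) * (√(d : ℝ) * (1 + Real.log d)) * Ω := by
      intro Ω hΩ h3
      apply le_of_mul_le_mul_left _ hsq
      refine h3.trans ?_
      calc (d : ℝ) * (4 * C * (N : ℝ) ^ (κ + 1) * (1 + Real.log d) * Ω)
          ≤ d * (24 * C * (N : ℝ) ^ (κ + 3) * (1 + Real.log d) * Ω) := by
            gcongr
            norm_num
        _ = √(d : ℝ) * √(d : ℝ) * (24 * C * (N : ℝ) ^ (κ + 3) * (1 + Real.log d) * Ω) := by
            rw [hsq2]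
        _ = _ := by ring
    constructor
    · intro hc
      apply fin _ h₁
      rw [h2, ← (Sm_even hN hf hdN χ⁻¹ (even_inv hc)).1]
      refine main (Rv a) _ (by positivity) (fun b hbd => ?_)
      unfold Rv
      rw [← Complex.ofReal_sub, Complex.norm_real, Real.norm_eq_abs]
      exact (boundary_growth hN ha hb hC hg (by omega) hdN b hbd).1
    · intro hc
      apply fin _ h₂
      rw [h2, ← (Sm_odd hN hf hdN χ⁻¹ (odd_inv hc)).2]
      refine main (Iv a) _ (by positivity) (fun b hbd => ?_)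
      unfold Iv
      rw [← Complex.ofReal_sub, Complex.norm_real, Real.norm_eq_abs]
      exact (boundary_growth hN ha hb hC hg (by omega) hdN b hbd).2
  · -- trivial conductor
    obtain rfl : d = 1 := by omega
    have h3 : Sm (Uv a) 1 χ⁻¹ = Uv a 0 := by
      unfold Sm
      rw [Fintype.sum_eq_single (1 : ZMod 1) (fun b hb => (hb (Subsingleton.elim _ _)).elim),
        map_one, one_mul]
      have h4 : (1 : ZMod 1).val = 0 := rfl
      rw [h4]
      simp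
    rw [h3] at h2
    simp only [Nat.cast_one, Real.sqrt_one, one_mul, Real.log_one, add_zero, mul_one] at h2 ⊢
    refine ⟨fun _ => ?_, fun hc => ?_⟩
    · rw [h2]
      exact untwisted hN ha hb hC hg
    · exfalso
      have h4 : χ (-1) = -1 := hc
      have h5 : (-1 : ZMod 1) = 1 := Subsingleton.elim _ _
      rw [h5, map_one] at h4
      norm_num at h4


end Pool.Agent.H50.TV
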