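import Pool.Graph.R_pool_sql_team_seeded_c8625f6e.K4H67.TV.Main

/-!
# Boundary values and twisted central values for normalised eigenforms with integer coefficients

The lemmas of `Pool.Agent.K4H67.TV` on newforms do not use that the form is new; they are repeated
here for the structure `Eigen` without this condition (so that they apply to twists of newforms).
-/

set_option autoImplicit false

open Complex Filter Topology Matrix.SpecialLinearGroup MatrixGroups Finset DirichletCharacter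

namespace Pool.Agent.H50.TV

open Pool.Agent.TH133.SH Pool.Agent.K4H67.TV

variable {N : ℕ} {a : ℕ → ℤ} {Ω₁ Ω₂ : ℂ}

/-- The integers `a(n)` are the coefficients of a cusp form of weight two and level `N` with
`a(1) = 1`, which is an eigenform of the Hecke operators at the primes which do not divide `N`. -/
structure Eigen (N : ℕ) (a : ℕ → ℤ) : Prop extends IsForm N a where
  one : a 1 = 1
  hecke : ∀ ℓ : ℕ, ℓ.Prime → ¬ ℓ ∣ N → ∀ n : ℕ,
    a (ℓ * n) + (if ℓ ∣ n then (ℓ : ℤ) * a (n / ℓ) else 0) = a ℓ * a n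

lemma Eigen.of_newform (h : IsNewform N a) : Eigen N a := ⟨h.toIsForm, h.one, h.hecke⟩

/-- The Hecke relation for the primitive. -/
lemma hecke_F (ha : Eigen N a) {ℓ : ℕ} (hℓ : ℓ.Prime) (hℓN : ¬ ℓ ∣ N) {τ : ℂ} (hτ : 0 < τ.im) :
    ∑ j ∈ range ℓ, Fser a ((τ + j) / ℓ) + Fser a (ℓ * τ) = (a ℓ : ℂ) * Fser a τ := by
  have hf := ha.toIsForm
  have hℓ0 : (0 : ℝ) < ℓ := by exact_mod_cast hℓ.pos
  have hℓc : (ℓ : ℂ) ≠ 0 := by exact_mod_cast hℓ.pos.ne'
  have him : 0 < (τ / ℓ).im := by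
    rw [Complex.div_natCast_im]
    positivity
  have him' : 0 < ((ℓ : ℂ) * τ).im := by
    simp
    positivity
  have hsum1 := summable_F hf him
  -- first sum
  have h1 : ∑ j ∈ range ℓ, Fser a ((τ + j) / ℓ) =
      ∑' k : ℕ, (if ℓ ∣ k then (ℓ : ℂ) * ((a k : ℂ) / (k : ℂ) * ee k (τ / ℓ)) else 0) := by
    have h2 : ∀ j ∈ range ℓ, Fser a ((τ + j) / ℓ) =
        ∑' k : ℕ, (a k : ℂ) / (k : ℂ) * ee k (τ / ℓ) * ee k ((j : ℂ) / ℓ) := by
      intro j _
      rw [Fser_eq]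
      refine tsum_congr fun k => ?_
      rw [mul_assoc]
      congr 1
      unfold ee
      rw [← Complex.exp_add]
      congr 1
      ring
    rw [sum_congr rfl h2, ← Summable.tsum_finsetSum]
    · refine tsum_congr fun k => ?_
      rw [← mul_sum, geom hℓ.pos]
      split_ifs
      · ring
      · ring
    · intro j _
      refine Summable.of_norm_bounded hsum1.norm (fun k => ?_)
      rw [norm_mul]
      apply mul_le_of_le_one_right (norm_nonneg _)
      apply le_of_eq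
      unfold ee
      rw [Complex.norm_exp]
      simp [Complex.div_re, Complex.div_im, Complex.mul_re, Complex.mul_im]
  rw [h1, tsum_multiples hℓ.pos]
  -- second sum
  have h3 : Fser a (ℓ * τ) =
      ∑' m : ℕ, (if ℓ ∣ m then (ℓ : ℂ) * (a (m / ℓ) : ℂ) / m * ee m τ else 0) := by
    rw [tsum_multiples hℓ.pos, Fser_eq]
    refine tsum_congr fun k => ?_
    rw [Nat.mul_div_cancel_left k hℓ.pos]
    have : ee (ℓ * k) τ = ee k (ℓ * τ) := by
      unfold ee
      congr 1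
      push_cast
      ring
    rw [this]
    congr 1
    push_cast
    rcases Nat.eq_zero_or_pos k with rfl | hk
    · simp
    · have : (k : ℂ) ≠ 0 := by exact_mod_cast hk.ne'
      field_simp
  have hs1 : Summable (fun m : ℕ => (ℓ : ℂ) * ((a (ℓ * m) : ℂ) / ((ℓ * m : ℕ) : ℂ) *
      ee (ℓ * m) (τ / ℓ))) := by
    have hinj : Function.Injective (fun m : ℕ => ℓ * m) :=
      fun m n h => Nat.eq_of_mul_eq_mul_left hℓ.pos h
    exact (hsum1.comp_injective hinj).mul_left _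
  have hs2 : Summable (fun m : ℕ =>
      (if ℓ ∣ m then (ℓ : ℂ) * (a (m / ℓ) : ℂ) / m * ee m τ else 0)) := by
    have hinj : Function.Injective (fun m : ℕ => ℓ * m) :=
      fun m n h => Nat.eq_of_mul_eq_mul_left hℓ.pos h
    rw [← hinj.summable_iff]
    · refine (summable_F hf him').congr (fun k => ?_)
      simp only [Function.comp]
      rw [if_pos (dvd_mul_right ℓ k), Nat.mul_div_cancel_left k hℓ.pos]
      have : ee (ℓ * k) τ = ee k (ℓ * τ) := by
        unfold ee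
        congr 1
        push_cast
        ring
      rw [this]
      congr 1
      push_cast
      rcases Nat.eq_zero_or_pos k with rfl | hk
      · simp
      · have : (k : ℂ) ≠ 0 := by exact_mod_cast hk.ne'
        field_simp
    · intro m hm
      rw [if_neg]
      rintro ⟨k, rfl⟩
      exact hm ⟨k, rfl⟩
  rw [h3, ← hs1.tsum_add hs2, Fser_eq, ← tsum_mul_left]
  refine tsum_congr fun m => ?_
  have e1 : ee (ℓ * m) (τ / ℓ) = ee m τ := by
    unfold ee
    congr 1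
    push_cast
    field_simp
  rw [e1]
  have h5 := congrArg (fun x : ℤ => (x : ℂ)) (ha.hecke ℓ hℓ hℓN m)
  push_cast at h5
  rcases Nat.eq_zero_or_pos m with rfl | hm
  · simp
  · have hm0 : (m : ℂ) ≠ 0 := by exact_mod_cast hm.ne'
    have e2 : (ℓ : ℂ) * ((a (ℓ * m) : ℂ) / ((ℓ * m : ℕ) : ℂ) * ee m τ) =
        (a (ℓ * m) : ℂ) / m * ee m τ := by
      push_cast
      field_simp
    rw [e2]
    split_ifs at h5 ⊢ with hd
    · rw [show (a ℓ : ℂ) * ((a m : ℂ) / m * ee m τ) = ((a ℓ : ℂ) * a m) / m * ee m τ by ring, ← h5]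
      ring
    · rw [show (a ℓ : ℂ) * ((a m : ℂ) / m * ee m τ) = ((a ℓ : ℂ) * a m) / m * ee m τ by ring, ← h5]
      ring

/-- The Hecke relation for the boundary values. -/
lemma hecke_val (ha : Eigen N a) {ℓ : ℕ} (hℓ : ℓ.Prime) (hℓN : ¬ ℓ ∣ N) {x : ℚ} {u v : ℂ}
    {w : ℕ → ℂ} (hu : HasVal a x u) (hv : HasVal a (ℓ * x) v)
    (hw : ∀ j ∈ range ℓ, HasVal a ((x + j) / ℓ) (w j)) :
    ∑ j ∈ range ℓ, w j + v = (a ℓ : ℂ) * u := by
  have hℓ0 : (0 : ℝ) < ℓ := by exact_mod_cast hℓ.pos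
  have hℓc : (ℓ : ℂ) ≠ 0 := by exact_mod_cast hℓ.pos.ne'
  have hscale : ∀ c : ℝ, 0 < c → Tendsto (fun y : ℝ => c * y) (𝓝[>] 0) (𝓝[>] 0) := by
    intro c hc
    rw [tendsto_nhdsWithin_iff]
    constructor
    · have : Tendsto (fun y : ℝ => c * y) (𝓝 0) (𝓝 (c * 0)) :=
        (continuous_const.mul continuous_id).tendsto 0
      rw [mul_zero] at this
      exact this.mono_left nhdsWithin_le_nhds
    · filter_upwards [self_mem_nhdsWithin] with y hy
      have hy0 : (0 : ℝ) < y := hy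
      exact Set.mem_Ioi.2 (by positivity)
  have h1 : Tendsto (fun y : ℝ => ∑ j ∈ range ℓ, Fser a ((((x : ℂ) + (y : ℂ) * Complex.I) + j) / ℓ))
      (𝓝[>] 0) (𝓝 (∑ j ∈ range ℓ, w j)) := by
    refine tendsto_finsetSum _ (fun j hj => ?_)
    have h2 := (hw j hj).comp (hscale (ℓ : ℝ)⁻¹ (by positivity))
    refine h2.congr (fun y => ?_)
    simp only [Function.comp]
    congr 1
    push_cast
    field_simp
    ring
  have h2 : Tendsto (fun y : ℝ => Fser a (ℓ * ((x : ℂ) + (y : ℂ) * Complex.I)))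
      (𝓝[>] 0) (𝓝 v) := by
    refine (hv.comp (hscale (ℓ : ℝ) hℓ0)).congr (fun y => ?_)
    simp only [Function.comp]
    congr 1
    push_cast
    ring
  have h3 := h1.add h2
  have h4 := hu.const_mul (a ℓ : ℂ)
  refine tendsto_nhds_unique (h3.congr' ?_) h4
  filter_upwards [self_mem_nhdsWithin] with y hy
  have hy0 : (0 : ℝ) < y := hy
  have him : 0 < ((x : ℂ) + (y : ℂ) * Complex.I).im := by
    simpa using hy0
  exact hecke_F ha hℓ hℓN him

/-- The form is not zero. -/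
lemma fser_ne (ha : Eigen N a) : ∃ τ : ℂ, 0 < τ.im ∧ fser a τ ≠ 0 := by
  by_contra hc
  push Not at hc
  have hf := ha.toIsForm
  have hI : ∀ y : ℝ, ((y : ℂ) * Complex.I).im = y := fun y => by simp
  have hee : ∀ (k : ℕ) (y : ℝ), ‖ee k ((y : ℂ) * Complex.I)‖ = Real.exp (-(2 * Real.pi * k * y)) := by
    intro k y
    unfold ee
    rw [Complex.norm_exp]
    congr 1
    simp [Complex.mul_re, Complex.mul_im]
  have h1 : Tendsto (fun y : ℝ => ∑' k : ℕ, (a k : ℂ) * ee k ((y : ℂ) * Complex.I) *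
      (Real.exp (2 * Real.pi * y) : ℂ)) atTop (𝓝 (∑' k : ℕ, if k = 1 then (1 : ℂ) else 0)) := by
    have hsum := (hf.summable ((1 : ℝ) * Complex.I) (by rw [hI]; norm_num)).norm
    refine tendsto_tsum_of_dominated_convergence (hsum.mul_right (Real.exp (2 * Real.pi))) ?_ ?_
    · intro k
      rcases Nat.eq_zero_or_pos k with rfl | hk
      · simp [hf.zero]
      rcases Nat.lt_or_ge 1 k with hk1 | hk1
      · rw [if_neg (by omega), tendsto_zero_iff_norm_tendsto_zero]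
        have h2 : Tendsto (fun y : ℝ => |(a k : ℝ)| * Real.exp (-(2 * Real.pi * (k - 1) * y)))
            atTop (𝓝 0) := by
          have hk2 : (1 : ℝ) < k := by exact_mod_cast hk1
          have h3 : 0 < 2 * Real.pi * ((k : ℝ) - 1) := by
            have := Real.pi_pos
            have : 0 < (k : ℝ) - 1 := by linarith
            positivity
          have h4 := Real.tendsto_exp_neg_atTop_nhds_zero.comp (tendsto_id.const_mul_atTop h3)
          have h5 := h4.const_mul |(a k : ℝ)|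
          rw [mul_zero] at h5
          exact h5
        refine h2.congr (fun y => ?_)
        rw [norm_mul, norm_mul, hee, Complex.norm_intCast, Complex.norm_real, Real.norm_eq_abs,
          abs_of_pos (Real.exp_pos _), mul_assoc |(a k : ℝ)|, ← Real.exp_add]
        congr 2
        ring
      · obtain rfl : k = 1 := by omega
        rw [if_pos rfl]
        refine tendsto_const_nhds.congr (fun y => ?_)
        rw [ha.one]
        unfold ee
        rw [Complex.ofReal_exp, mul_assoc, ← Complex.exp_add]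
        have : 2 * (Real.pi : ℂ) * Complex.I * ((1 : ℕ) : ℂ) * ((y : ℂ) * Complex.I) +
            ((2 * Real.pi * y : ℝ) : ℂ) = 0 := by
          push_cast
          linear_combination (2 * (Real.pi : ℂ) * y) * Complex.I_mul_I
        rw [this]
        simp
    · filter_upwards [eventually_ge_atTop (1 : ℝ)] with y hy k
      rcases Nat.eq_zero_or_pos k with rfl | hk
      · simp [hf.zero]
      have hk1 : (1 : ℝ) ≤ k := by exact_mod_cast hk
      have hpi := Real.pi_pos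
      have h6 := hee k 1
      have h7 : (2 * (Real.pi : ℂ) * Complex.I * (k : ℂ) * (((1 : ℝ) : ℂ) * Complex.I)) =
          (2 * (Real.pi : ℂ) * Complex.I * (k : ℂ) * (((1 : ℝ) : ℂ) * Complex.I)) := rfl
      rw [norm_mul, norm_mul, hee, norm_mul]
      change _ ≤ ‖(a k : ℂ)‖ * ‖ee k (((1 : ℝ) : ℂ) * Complex.I)‖ * Real.exp (2 * Real.pi)
      rw [h6, Complex.norm_real, Real.norm_eq_abs, abs_of_pos (Real.exp_pos _),
        mul_assoc ‖(a k : ℂ)‖, mul_assoc ‖(a k : ℂ)‖, ← Real.exp_add, ← Real.exp_add]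
      refine mul_le_mul_of_nonneg_left (Real.exp_le_exp.2 ?_) (norm_nonneg _)
      have h8 : 0 ≤ (y - 1) * ((k : ℝ) - 1) := mul_nonneg (by linarith) (by linarith)
      have h9 := mul_nonneg hpi.le h8
      nlinarith
  have h2 : ∀ y : ℝ, 0 < y → ∑' k : ℕ, (a k : ℂ) * ee k ((y : ℂ) * Complex.I) *
      (Real.exp (2 * Real.pi * y) : ℂ) = 0 := by
    intro y hy
    rw [tsum_mul_right]
    have h3 := hc ((y : ℂ) * Complex.I) (by rw [hI]; exact hy)
    unfold fser at h3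
    change ∑' k : ℕ, (a k : ℂ) * ee k ((y : ℂ) * Complex.I) = 0 at h3
    rw [h3, zero_mul]
  rw [tsum_ite_eq] at h1
  have h3 : Tendsto (fun y : ℝ => ∑' k : ℕ, (a k : ℂ) * ee k ((y : ℂ) * Complex.I) *
      (Real.exp (2 * Real.pi * y) : ℂ)) atTop (𝓝 0) := by
    refine tendsto_const_nhds.congr' ?_
    filter_upwards [eventually_gt_atTop (0 : ℝ)] with y hy
    exact (h2 y hy).symm
  exact one_ne_zero (tendsto_nhds_unique h1 h3)

/-- The Hecke relation for the form. -/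
lemma hecke_f (ha : Eigen N a) {ℓ : ℕ} (hℓ : ℓ.Prime) (hℓN : ¬ ℓ ∣ N) {τ : ℂ} (hτ : 0 < τ.im) :
    ∑ j ∈ range ℓ, fser a ((τ + j) / ℓ) * (ℓ : ℂ)⁻¹ + fser a (ℓ * τ) * ℓ =
      (a ℓ : ℂ) * fser a τ := by
  have hf := ha.toIsForm
  have hℓ0 : (0 : ℝ) < ℓ := by exact_mod_cast hℓ.pos
  have hd : ∀ z : ℂ, 0 < z.im → HasDerivAt (Fser a) (2 * (Real.pi : ℂ) * Complex.I * fser a z) z :=
    fun z hz => hasDerivAt_Fser hf.zero hf.summable hz
  have him1 : ∀ j : ℕ, 0 < ((τ + j) / ℓ).im := fun j => by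
    rw [Complex.div_natCast_im]
    simp only [Complex.add_im, Complex.natCast_im, add_zero]
    positivity
  have him2 : 0 < ((ℓ : ℂ) * τ).im := by
    simp
    positivity
  have h1 : HasDerivAt (fun z => ∑ j ∈ range ℓ, Fser a ((z + j) / ℓ) + Fser a (ℓ * z))
      (∑ j ∈ range ℓ, 2 * (Real.pi : ℂ) * Complex.I * fser a ((τ + j) / ℓ) * (ℓ : ℂ)⁻¹ +
        2 * (Real.pi : ℂ) * Complex.I * fser a (ℓ * τ) * ℓ) τ := by
    refine HasDerivAt.add ?_ ?_
    · refine HasDerivAt.fun_sum fun j _ => ?_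
      have h2 : HasDerivAt (fun z : ℂ => (z + j) / ℓ) (ℓ : ℂ)⁻¹ τ := by
        simpa using ((hasDerivAt_id τ).add_const (j : ℂ)).div_const (ℓ : ℂ)
      exact (hd _ (him1 j)).comp τ h2
    · have h2 : HasDerivAt (fun z : ℂ => (ℓ : ℂ) * z) (ℓ : ℂ) τ := by
        simpa using (hasDerivAt_id τ).const_mul (ℓ : ℂ)
      exact (hd _ him2).comp τ h2
  have h2 : HasDerivAt (fun z => (a ℓ : ℂ) * Fser a z)
      ((a ℓ : ℂ) * (2 * (Real.pi : ℂ) * Complex.I * fser a τ)) τ := (hd τ hτ).const_mul _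
  have h3 : (fun z => ∑ j ∈ range ℓ, Fser a ((z + j) / ℓ) + Fser a (ℓ * z)) =ᶠ[𝓝 τ]
      (fun z => (a ℓ : ℂ) * Fser a z) := by
    filter_upwards [isOpen_H.mem_nhds hτ] with z hz
    exact hecke_F ha hℓ hℓN hz
  have h4 := (h2.congr_of_eventuallyEq h3).unique h1
  have hpi : (2 * (Real.pi : ℂ) * Complex.I) ≠ 0 := by simp [Real.pi_ne_zero]
  apply mul_left_cancel₀ hpi
  rw [show 2 * (Real.pi : ℂ) * Complex.I * ((a ℓ : ℂ) * fser a τ) =
    (a ℓ : ℂ) * (2 * (Real.pi : ℂ) * Complex.I * fser a τ) by ring, h4, mul_add, mul_sum]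
  congr 1
  · exact sum_congr rfl fun j _ => by ring
  · ring

lemma hecke_phi (ha : Eigen N a) {ℓ : ℕ} (hℓ : ℓ.Prime) (hℓN : ¬ ℓ ∣ N) {τ : ℂ}
    (hτ : 0 < τ.im) :
    |(a ℓ : ℝ)| * phi a τ ≤ ∑ j ∈ range ℓ, phi a ((τ + j) / ℓ) + phi a (ℓ * τ) := by
  have hℓ0 : (0 : ℝ) < ℓ := by exact_mod_cast hℓ.pos
  have h1 := congrArg norm (hecke_f ha hℓ hℓN hτ)
  rw [norm_mul, Complex.norm_intCast] at h1
  unfold phi
  rw [show |(a ℓ : ℝ)| * (τ.im * ‖fser a τ‖) = τ.im * (|(a ℓ : ℝ)| * ‖fser a τ‖) by ring, ← h1]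
  calc τ.im * ‖∑ j ∈ range ℓ, fser a ((τ + j) / ℓ) * (ℓ : ℂ)⁻¹ + fser a (ℓ * τ) * ℓ‖
      ≤ τ.im * (∑ j ∈ range ℓ, ‖fser a ((τ + j) / ℓ) * (ℓ : ℂ)⁻¹‖ + ‖fser a (ℓ * τ) * ℓ‖) := by
        gcongr
        exact (norm_add_le _ _).trans (add_le_add_left (norm_sum_le _ _) _)
    _ = _ := by
        rw [mul_add, mul_sum]
        congr 1
        · refine sum_congr rfl fun j _ => ?_
          rw [norm_mul, norm_inv, Complex.norm_natCast, Complex.div_natCast_im]
          simp only [Complex.add_im, Complex.natCast_im, add_zero]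
          field_simp
        · rw [norm_mul, Complex.norm_natCast]
          simp
          ring

theorem abs_le (hN : 1 ≤ N) (ha : Eigen N a) {ℓ : ℕ} (hℓ : ℓ.Prime) (hℓN : ¬ ℓ ∣ N) :
    |(a ℓ : ℝ)| ≤ ℓ + 1 := by
  obtain ⟨τ₀, hτ₀, hpos, hmax⟩ := exists_max hN ha.toIsForm (fser_ne ha)
  have hℓ0 : (0 : ℝ) < ℓ := by exact_mod_cast hℓ.pos
  have him1 : ∀ j : ℕ, 0 < ((τ₀ + j) / ℓ).im := fun j => by
    rw [Complex.div_natCast_im]
    simp only [Complex.add_im, Complex.natCast_im, add_zero]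
    positivity
  have him2 : 0 < ((ℓ : ℂ) * τ₀).im := by
    simp
    positivity
  have h1 := hecke_phi ha hℓ hℓN hτ₀
  have h2 : ∑ j ∈ range ℓ, phi a ((τ₀ + j) / ℓ) ≤ ℓ * phi a τ₀ := by
    refine (sum_le_sum fun j _ => hmax _ (him1 j)).trans ?_
    simp
  have h3 := hmax _ him2
  have h4 : |(a ℓ : ℝ)| * phi a τ₀ ≤ (ℓ + 1) * phi a τ₀ := by linarith
  exact le_of_mul_le_mul_right h4 hpos

theorem ne_add_one (hN : 1 ≤ N) (ha : Eigen N a) {ℓ : ℕ} (hℓ : ℓ.Prime) (hℓN : ¬ ℓ ∣ N) :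
    a ℓ ≠ ℓ + 1 := by
  intro heq
  obtain ⟨τ₀, hτ₀, hpos, hmax⟩ := exists_max hN ha.toIsForm (fser_ne ha)
  have hℓ0 : (0 : ℝ) < ℓ := by exact_mod_cast hℓ.pos
  have hℓ1 : (1 : ℝ) < ℓ := by exact_mod_cast hℓ.one_lt
  have hk : ∀ k : ℕ, 0 < ((ℓ : ℂ) ^ k * τ₀).im ∧ phi a ((ℓ : ℂ) ^ k * τ₀) = phi a τ₀ := by
    intro k
    induction k with
    | zero => simpa using hτ₀
    | succ k ih =>
      obtain ⟨hpos', heq'⟩ := ih
      set z : ℂ := (ℓ : ℂ) ^ k * τ₀ with hz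
      have e : (ℓ : ℂ) ^ (k + 1) * τ₀ = ℓ * z := by rw [hz]; ring
      have him1 : ∀ j : ℕ, 0 < ((z + j) / ℓ).im := fun j => by
        rw [Complex.div_natCast_im]
        simp only [Complex.add_im, Complex.natCast_im, add_zero]
        positivity
      have him2 : 0 < ((ℓ : ℂ) * z).im := by
        simp only [Complex.mul_im, Complex.natCast_re, Complex.natCast_im, zero_mul, add_zero]
        positivity
      rw [e]
      refine ⟨him2, le_antisymm (hmax _ him2) ?_⟩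
      have h1 := hecke_phi ha hℓ hℓN hpos'
      have h2 : ∑ j ∈ range ℓ, phi a ((z + j) / ℓ) ≤ ℓ * phi a τ₀ := by
        refine (sum_le_sum fun j _ => hmax _ (him1 j)).trans ?_
        simp
      rw [heq', heq] at h1
      push_cast at h1
      rw [abs_of_pos (by positivity)] at h1
      linarith
  obtain ⟨T, hT⟩ := phi_rep_tendsto hN ha.toIsForm 1 hpos
  have h5 : Tendsto (fun k : ℕ => (ℓ : ℝ) ^ k * τ₀.im) atTop atTop :=
    (tendsto_pow_atTop_atTop_of_one_lt hℓ1).atTop_mul_const hτ₀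
  obtain ⟨k, hkT⟩ := (h5.eventually_gt_atTop T).exists
  have him : ((ℓ : ℂ) ^ k * τ₀).im = (ℓ : ℝ) ^ k * τ₀.im := by
    have : ((ℓ : ℂ) ^ k * τ₀) = (((ℓ : ℝ) ^ k : ℝ) : ℂ) * τ₀ := by push_cast; rfl
    rw [this, Complex.im_ofReal_mul]
  have h6 := hT _ (hk k).1 (by rw [him]; exact hkT)
  rw [act_one, (hk k).2] at h6
  exact lt_irrefl _ h6

/-- The Hecke relation for the boundary values. -/
lemma Uv_hecke (hN : 1 ≤ N) (ha : Eigen N a) {ℓ : ℕ} (hℓ : ℓ.Prime) (hℓN : ¬ ℓ ∣ N) (b : ℕ)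
    {m : ℕ} (hm : 0 < m) (hmN : m.Coprime N) :
    ∑ j ∈ range ℓ, Uv a (((b : ℚ) / m + j) / ℓ) + Uv a (ℓ * ((b : ℚ) / m)) =
      (a ℓ : ℂ) * Uv a ((b : ℚ) / m) := by
  have hf := ha.toIsForm
  have hℓc : ℓ.Coprime N := (Nat.Prime.coprime_iff_not_dvd hℓ).2 hℓN
  have hℓq : (ℓ : ℚ) ≠ 0 := by exact_mod_cast hℓ.pos.ne'
  have hmq : (m : ℚ) ≠ 0 := by exact_mod_cast hm.ne'
  apply hecke_val ha hℓ hℓN
  · have := hasVal_all hN hf (b : ℤ) hm hmN
    push_cast at this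
    exact this
  · have := hasVal_all hN hf ((ℓ * b : ℕ) : ℤ) hm hmN
    have e : (((ℓ * b : ℕ) : ℤ) : ℚ) / m = ℓ * ((b : ℚ) / m) := by
      push_cast
      ring
    rwa [e] at this
  · intro j _
    have := hasVal_all hN hf ((b + m * j : ℕ) : ℤ) (Nat.mul_pos hm hℓ.pos)
      (Nat.Coprime.mul_left hmN hℓc)
    have e : (((b + m * j : ℕ) : ℤ) : ℚ) / ((m * ℓ : ℕ) : ℚ) = ((b : ℚ) / m + j) / ℓ := by
      push_cast
      field_simp
    rwa [e] at this

lemma heckeR (hN : 1 ≤ N) (ha : Eigen N a)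
    (hb : ∀ ℓ : ℕ, ℓ.Prime → ¬ ℓ ∣ N → |(a ℓ : ℝ)| ≤ ℓ + 1) :
    HeckeFn N (fun ℓ => (a ℓ : ℂ)) (Rv a) where
  per := fun x => by unfold Rv; rw [Uv_per]
  hecke := fun ℓ hℓ hℓN b m hm hmN => by
    have h1 := congrArg Complex.re (Uv_hecke hN ha hℓ hℓN b hm hmN)
    unfold Rv
    have h2 : ∀ z : ℂ, ((a ℓ : ℂ) * z).re = (a ℓ : ℝ) * z.re := fun z => by
      simp [Complex.mul_re]
    rw [Complex.add_re, Complex.re_sum, h2] at h1
    have h3 := congrArg (fun t : ℝ => (t : ℂ)) h1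
    push_cast at h3
    push_cast
    exact h3
  bound := fun ℓ hℓ hℓN => by
    rw [Complex.norm_intCast]
    exact hb ℓ hℓ hℓN

lemma heckeI (hN : 1 ≤ N) (ha : Eigen N a)
    (hb : ∀ ℓ : ℕ, ℓ.Prime → ¬ ℓ ∣ N → |(a ℓ : ℝ)| ≤ ℓ + 1) :
    HeckeFn N (fun ℓ => (a ℓ : ℂ)) (Iv a) where
  per := fun x => by unfold Iv; rw [Uv_per]
  hecke := fun ℓ hℓ hℓN b m hm hmN => by
    have h1 := congrArg Complex.im (Uv_hecke hN ha hℓ hℓN b hm hmN)
    unfold Iv
    have h2 : ∀ z : ℂ, ((a ℓ : ℂ) * z).im = (a ℓ : ℝ) * z.im := fun z => by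
      simp [Complex.mul_im]
    rw [Complex.add_im, Complex.im_sum, h2] at h1
    have h3 := congrArg (fun t : ℝ => (t : ℂ)) h1
    push_cast at h3
    push_cast
    exact h3
  bound := fun ℓ hℓ hℓN => by
    rw [Complex.norm_intCast]
    exact hb ℓ hℓ hℓN

end Pool.Agent.H50.TV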