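import Pool.Agent.H50.TV.Tw

/-!
# One parity of characters is enough: the final statement
-/

set_option autoImplicit false

open Complex Filter Topology Matrix.SpecialLinearGroup MatrixGroups Finset DirichletCharacter

namespace Pool.Agent.H50.TV

open Pool.Agent.TH133.SH Pool.Agent.K4H67.TV Pool.Agent.Q127.SM

variable {N : ℕ} {a a' : ℕ → ℤ} {Ω₁ Ω₂ Ω₁' Ω₂' : ℂ}

/-- Only the even characters, all conductors `d` prime to the level, with an additional factor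
`√d (1 + log d)`. -/
def EvenGrowth (𝓕 : ℕ → (ℕ → ℤ) → Prop) : Prop :=
  ∃ κ : ℝ, 0 < κ ∧ ∃ C : ℝ, 0 < C ∧ ∀ N : ℕ, 1 ≤ N → ∀ a : ℕ → ℤ, 𝓕 N a →
    ∀ Ω₁ Ω₂ : ℂ, IsBasis N a Ω₁ Ω₂ → ∀ d : ℕ, 1 ≤ d → d.Coprime N →
      ∀ χ : DirichletCharacter ℂ d, χ.IsPrimitive → χ.Even → ∀ L : ℂ, HasLVal a χ L →
        ‖L‖ ≤ C * (N : ℝ) ^ κ * (√(d : ℝ) * (1 + Real.log d)) * Ω₁.re

/-- Only the odd characters, all conductors `d` prime to the level, with an additional factor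
`√d (1 + log d)`. -/
def OddGrowth (𝓕 : ℕ → (ℕ → ℤ) → Prop) : Prop :=
  ∃ κ : ℝ, 0 < κ ∧ ∃ C : ℝ, 0 < C ∧ ∀ N : ℕ, 1 ≤ N → ∀ a : ℕ → ℤ, 𝓕 N a →
    ∀ Ω₁ Ω₂ : ℂ, IsBasis N a Ω₁ Ω₂ → ∀ d : ℕ, 1 ≤ d → d.Coprime N →
      ∀ χ : DirichletCharacter ℂ d, χ.IsPrimitive → χ.Odd → ∀ L : ℂ, HasLVal a χ L →
        ‖L‖ ≤ C * (N : ℝ) ^ κ * (√(d : ℝ) * (1 + Real.log d)) * Ω₂.im

lemma rpow_add_one (hN : 1 ≤ N) (κ C : ℝ) :
    2 * (C * (N : ℝ) ^ κ) * N = 2 * C * (N : ℝ) ^ (κ + 1) := by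
  have hN0 : (0 : ℝ) < N := by exact_mod_cast hN
  rw [Real.rpow_add hN0, Real.rpow_one]
  ring

/-- Q1 for a family gives logarithmic growth for the family. -/
lemma growth_of_question {𝓕 : ℕ → (ℕ → ℤ) → Prop} (hF : ∀ N a, 1 ≤ N → 𝓕 N a → IsForm N a)
    (h : Question 𝓕 CoordBound) : ∃ κ : ℝ, 0 < κ ∧ ∃ C : ℝ, 0 < C ∧
    ∀ N : ℕ, 1 ≤ N → ∀ a : ℕ → ℤ, 𝓕 N a → ∀ Ω₁ Ω₂ : ℂ, IsBasis N a Ω₁ Ω₂ →
      ∀ p q r s : ℤ, p * s - q * r = 1 → (N : ℤ) ∣ r → r ≠ 0 →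
      CoordBound a Ω₁ Ω₂ p q r s (C * (N : ℝ) ^ κ * (1 + Real.log |(r : ℝ)|)) := by
  obtain ⟨κ, hκ, C, hC, h⟩ := h
  refine ⟨κ + 1, by positivity, 2 * C, by positivity, ?_⟩
  intro N hN a ha Ω₁ Ω₂ hb p q r s hd hr hr0 m n hmn
  have hf := hF N a hN ha
  have key : ∀ γ : SL(2, ℤ), InG N γ → Bounded ((N : ℤ) ^ 2) γ →
      |L₁ Ω₁ Ω₂ (Hs a γ)| ≤ C * (N : ℝ) ^ κ ∧ |L₂ Ω₂ (Hs a γ)| ≤ C * (N : ℝ) ^ κ := by
    intro γ h1 h2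
    obtain ⟨m', n', hmn'⟩ := lattice hf hb (z := Hs a γ) ⟨γ, h1, rfl⟩
    rw [hmn', L₁_apply hb, L₂_apply hb]
    exact h N hN a ha Ω₁ Ω₂ hb _ _ _ _ (det_eq γ) h1 (h2 0 0) (h2 0 1) (h2 1 0) (h2 1 1) m' n' hmn'
  have k1 := coord_bound hN hf (L₁ Ω₁ Ω₂) (fun γ h1 h2 => (key γ h1 h2).1)
    (γ := mk p q r s hd) hr hr0
  have k2 := coord_bound hN hf (L₂ Ω₂) (fun γ h1 h2 => (key γ h1 h2).2)
    (γ := mk p q r s hd) hr hr0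
  have hH : Hs a (mk p q r s hd) = (m : ℂ) * Ω₁ + (n : ℂ) * Ω₂ := hmn
  rw [hH, L₁_apply hb, rpow_add_one hN] at k1
  rw [hH, L₂_apply hb, rpow_add_one hN] at k2
  exact ⟨k1, k2⟩

theorem growth_of_Q1 (h : EntriesAtMost 2) :
    EvenGrowth NewformOrTwist ∧ OddGrowth NewformOrTwist := by
  have hF : ∀ N a, 1 ≤ N → NewformOrTwist N a → IsForm N a :=
    fun N a hN ha => (eigen_family hN ha).toIsForm
  obtain ⟨κ, hκ, C, hC, hg⟩ := growth_of_question hF ((Pool.Agent.Q127.SM.main.1.out 0 1).1 h)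
  constructor
  · refine ⟨κ + 3, by positivity, 24 * C, by positivity, ?_⟩
    intro N hN a ha Ω₁ Ω₂ hb d hd hdN χ hχ hc L hL
    exact (values_growth hN (eigen_family hN ha) hb hC (hg N hN a ha Ω₁ Ω₂ hb) hd hdN hχ hL).1 hc
  · refine ⟨κ + 3, by positivity, 24 * C, by positivity, ?_⟩
    intro N hN a ha Ω₁ Ω₂ hb d hd hdN χ hχ hc L hL
    exact (values_growth hN (eigen_family hN ha) hb hC (hg N hN a ha Ω₁ Ω₂ hb) hd hdN hχ hL).2 hc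

lemma factor_le {d A : ℕ} (hN : 1 ≤ N) (hd : 1 ≤ d) (hdA : d ≤ N ^ A) {C κ Ω : ℝ} (hC : 0 < C)
    (hΩ : 0 < Ω) : C * (N : ℝ) ^ κ * (√(d : ℝ) * (1 + Real.log d)) * Ω ≤
      2 * C * (N : ℝ) ^ (κ + (2 * A : ℕ)) * Ω := by
  have hN0 : (0 : ℝ) < N := by exact_mod_cast hN
  have hd0 : (0 : ℝ) < d := by exact_mod_cast hd
  have hd1 : (1 : ℝ) ≤ d := by exact_mod_cast hd
  have hfac : √(d : ℝ) * (1 + Real.log d) ≤ 2 * (N : ℝ) ^ (2 * A) := by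
    have h2 : √(d : ℝ) ≤ d := by
      rw [Real.sqrt_le_left (by linarith)]
      nlinarith
    have h3 : Real.log d ≤ d := Real.log_le_self hd0.le
    have h3' : 0 ≤ Real.log d := Real.log_nonneg hd1
    have h4 : (d : ℝ) ≤ (N : ℝ) ^ A := by exact_mod_cast hdA
    calc √(d : ℝ) * (1 + Real.log d) ≤ d * (d + d) := by gcongr
      _ ≤ (N : ℝ) ^ A * ((N : ℝ) ^ A + (N : ℝ) ^ A) := by gcongr
      _ = _ := by rw [mul_comm 2 A, pow_mul]; ring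
  rw [Real.rpow_add hN0, Real.rpow_natCast]
  calc C * (N : ℝ) ^ κ * (√(d : ℝ) * (1 + Real.log d)) * Ω
      ≤ C * (N : ℝ) ^ κ * (2 * (N : ℝ) ^ (2 * A)) * Ω := by gcongr
    _ = _ := by ring

lemma even_of_growth {𝓕 : ℕ → (ℕ → ℤ) → Prop} (h : EvenGrowth 𝓕) (A : ℕ) :
    EvenValues 𝓕 (fun N => N ^ A) := by
  obtain ⟨κ, hκ, C, hC, h⟩ := h
  refine ⟨κ + (2 * A : ℕ), by positivity, 2 * C, by positivity, ?_⟩
  intro N hN a ha Ω₁ Ω₂ hb d hd hdA hdN χ hχ hc L hL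
  exact (h N hN a ha Ω₁ Ω₂ hb d hd hdN χ hχ hc L hL).trans (factor_le hN hd hdA hC hb.re₁)

lemma odd_of_growth {𝓕 : ℕ → (ℕ → ℤ) → Prop} (h : OddGrowth 𝓕) (A : ℕ) :
    OddValues 𝓕 (fun N => N ^ A) := by
  obtain ⟨κ, hκ, C, hC, h⟩ := h
  refine ⟨κ + (2 * A : ℕ), by positivity, 2 * C, by positivity, ?_⟩
  intro N hN a ha Ω₁ Ω₂ hb d hd hdA hdN χ hχ hc L hL
  exact (h N hN a ha Ω₁ Ω₂ hb d hd hdN χ hχ hc L hL).trans (factor_le hN hd hdA hC hb.im₂)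

lemma condBound_le_pow (hN : 2 ≤ N) : condBound N ≤ N ^ 11 := by
  refine (condBound_le (by omega)).trans ?_
  calc 9 * N ^ 7 ≤ 2 ^ 4 * N ^ 7 := by gcongr; norm_num
    _ ≤ N ^ 4 * N ^ 7 := by gcongr
    _ = N ^ 11 := by ring

lemma even_mono {𝓕 : ℕ → (ℕ → ℤ) → Prop} (hF : ∀ N a, 1 ≤ N → 𝓕 N a → IsForm N a)
    (h : EvenValues 𝓕 (fun N => N ^ 11)) : EvenValues 𝓕 condBound := by
  obtain ⟨κ, hκ, C, hC, h⟩ := h
  refine ⟨κ, hκ, C, hC, ?_⟩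
  intro N hN a ha Ω₁ Ω₂ hb d hd hdD hdN
  exact h N hN a ha Ω₁ Ω₂ hb d hd (hdD.trans (condBound_le_pow (two_le hN (hF N a hN ha) hb))) hdN

lemma odd_mono {𝓕 : ℕ → (ℕ → ℤ) → Prop} (hF : ∀ N a, 1 ≤ N → 𝓕 N a → IsForm N a)
    (h : OddValues 𝓕 (fun N => N ^ 11)) : OddValues 𝓕 condBound := by
  obtain ⟨κ, hκ, C, hC, h⟩ := h
  refine ⟨κ, hκ, C, hC, ?_⟩
  intro N hN a ha Ω₁ Ω₂ hb d hd hdD hdN
  exact h N hN a ha Ω₁ Ω₂ hb d hd (hdD.trans (condBound_le_pow (two_le hN (hF N a hN ha) hb))) hdN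

/-- The values for the twists alone, of both parities, give Q1. -/
theorem Q1_of_twisted (he : EvenValues Twisted condBound) (ho : OddValues Twisted condBound) :
    EntriesAtMost 2 := by
  have H := lemmas
  have hE : ∀ N a, 1 ≤ N → Twisted N a → Eigen N a := fun N a hN ha => eigen_twisted hN ha
  have hF : ∀ N a, 1 ≤ N → Twisted N a → IsForm N a := fun N a hN ha => (hE N a hN ha).toIsForm
  obtain ⟨κ, hκ, C, hC, hre⟩ := re_up hF (re_of_even hE he)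
  obtain ⟨κ', hκ', C', hC', hse⟩ := second_up hF (second_of_odd hE ho)
  refine ⟨(3 * κ + 18) + (3 * κ' + 18), by positivity,
    335544321 * C * (16 : ℝ) ^ κ + 335544321 * C' * (16 : ℝ) ^ κ', by positivity, ?_⟩
  intro N hN a ha Ω₁ Ω₂ hb p q r s hd hr hp hq hr' hs m n hmn
  obtain ⟨ℓ, hℓ, hℓ4, hℓN, hℓle⟩ := H.prm N hN
  obtain ⟨χ, hχ⟩ := H.chr ℓ hℓ hℓ4
  have : NeZero ℓ := ⟨hℓ.ne_zero⟩
  obtain ⟨a', htw⟩ := exists_twist hχ a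
  have hM : 1 ≤ N * ℓ ^ 2 := Nat.one_le_iff_ne_zero.2 (by
    have := hℓ.ne_zero
    positivity)
  have hcl : Twisted (N * ℓ ^ 2) a' := ⟨N, a, ℓ, χ, ha, hℓ, hℓN, rfl, hχ, htw⟩
  have ha' : IsForm (N * ℓ ^ 2) a' := hF _ _ hM hcl
  have hγB : Bounded ((N : ℤ) ^ 2) (mk p q r s hd) := bounded_mk hd hp hq hr' hs
  have key := Q1_of_second H hN ha hℓ hℓN hχ htw hb
    (B := C' * ((N * ℓ ^ 2 : ℕ) : ℝ) ^ κ') (by positivity) (by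
    intro w₁ w₂ hw δ hδ hδ'
    exact second_apply ha' hw hδ (hse (N * ℓ ^ 2) hM a' hcl w₁ w₂ hw _ _ _ _ (det_eq δ) hδ
      (hδ' 0 0) (hδ' 0 1) (hδ' 1 0) (hδ' 1 1))) (γ := mk p q r s hd) hr hγB
  have key' := second_of_re hN ha hℓ hℓN hχ htw hb
    (B := C * ((N * ℓ ^ 2 : ℕ) : ℝ) ^ κ) (by positivity)
    (fun w₁ w₂ hw δ hδ hδ' => hre (N * ℓ ^ 2) hM a' hcl w₁ w₂ hw δ hδ hδ')
    (γ := mk p q r s hd) hr hγB
  have k3 := first_bound hb key key'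
  have hH : Hs a (mk p q r s hd) = (m : ℂ) * Ω₁ + (n : ℂ) * Ω₂ := hmn
  rw [hH, L₂_apply hb] at key'
  rw [hH, L₁_apply hb] at k3
  have hcon := constants hN hℓle hC hκ rfl rfl
  have hcon' := constants hN hℓle hC' hκ' rfl rfl
  have hpos : 0 ≤ ((ℓ : ℝ) + 1) * ℓ * ℓ * (2 * (C * ((N * ℓ ^ 2 : ℕ) : ℝ) ^ κ) *
    ((N * ℓ ^ 2 : ℕ) : ℝ) * (16 * (N : ℝ) ^ 6 * (ℓ : ℝ) ^ 6)) := by positivity
  have hpos' : 0 ≤ ((ℓ : ℝ) + 1) * ℓ * ℓ * (2 * (C' * ((N * ℓ ^ 2 : ℕ) : ℝ) ^ κ') *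
    ((N * ℓ ^ 2 : ℕ) : ℝ) * (16 * (N : ℝ) ^ 6 * (ℓ : ℝ) ^ 6)) := by positivity
  have hp1 : 0 ≤ C * (N : ℝ) ^ κ := by positivity
  have hp2 : 0 ≤ C' * (N : ℝ) ^ κ' := by positivity
  have hN1 : (1 : ℝ) ≤ N := by exact_mod_cast hN
  have e1 : (N : ℝ) ^ (3 * κ + 18) ≤ (N : ℝ) ^ ((3 * κ + 18) + (3 * κ' + 18)) :=
    Real.rpow_le_rpow_of_exponent_le hN1 (by linarith)
  have e2 : (N : ℝ) ^ (3 * κ' + 18) ≤ (N : ℝ) ^ ((3 * κ + 18) + (3 * κ' + 18)) :=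
    Real.rpow_le_rpow_of_exponent_le hN1 (by linarith)
  have f1 : (335544321 * C * (16 : ℝ) ^ κ) * (N : ℝ) ^ (3 * κ + 18) ≤
      (335544321 * C * (16 : ℝ) ^ κ) * (N : ℝ) ^ ((3 * κ + 18) + (3 * κ' + 18)) := by gcongr
  have f2 : (335544321 * C' * (16 : ℝ) ^ κ') * (N : ℝ) ^ (3 * κ' + 18) ≤
      (335544321 * C' * (16 : ℝ) ^ κ') * (N : ℝ) ^ ((3 * κ + 18) + (3 * κ' + 18)) := by gcongr
  have f3 : 0 ≤ (335544321 * C' * (16 : ℝ) ^ κ') *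
      (N : ℝ) ^ ((3 * κ + 18) + (3 * κ' + 18)) := by positivity
  constructor
  · rw [add_mul]
    linarith
  · rw [add_mul]
    linarith

/-- **One parity of characters is enough.** -/
theorem main : List.TFAE [EntriesAtMost 2,
    EvenValues NewformOrTwist condBound, OddValues NewformOrTwist condBound,
    EvenValues Twisted condBound ∧ OddValues Twisted condBound,
    ∀ A : ℕ, EvenValues NewformOrTwist (fun N => N ^ A),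
    ∀ A : ℕ, OddValues NewformOrTwist (fun N => N ^ A),
    EvenGrowth NewformOrTwist, OddGrowth NewformOrTwist] := by
  have hE : ∀ N a, 1 ≤ N → NewformOrTwist N a → Eigen N a := fun N a hN ha => eigen_family hN ha
  have hF : ∀ N a, 1 ≤ N → NewformOrTwist N a → IsForm N a :=
    fun N a hN ha => (hE N a hN ha).toIsForm
  tfae_have 1 → 7 := fun h => (growth_of_Q1 h).1
  tfae_have 1 → 8 := fun h => (growth_of_Q1 h).2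
  tfae_have 7 → 5 := fun h A => even_of_growth h A
  tfae_have 8 → 6 := fun h A => odd_of_growth h A
  tfae_have 5 → 2 := fun h => even_mono hF (h 11)
  tfae_have 6 → 3 := fun h => odd_mono hF (h 11)
  tfae_have 2 → 1 := fun h => Q1_of_re (re_of_even hE h)
  tfae_have 3 → 1 := fun h => (Pool.Agent.Q127.SM.main.1.out 3 0).1 (second_of_odd hE h)
  tfae_have 4 → 1 := fun h => Q1_of_twisted h.1 h.2
  tfae_have 1 → 4 := by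
    intro h
    obtain ⟨κ, hκ, C, hC, h1⟩ := even_mono hF (even_of_growth (growth_of_Q1 h).1 11)
    obtain ⟨κ', hκ', C', hC', h2⟩ := odd_mono hF (odd_of_growth (growth_of_Q1 h).2 11)
    exact ⟨⟨κ, hκ, C, hC, fun N hN a ha => h1 N hN a (Or.inr ha)⟩,
      ⟨κ', hκ', C', hC', fun N hN a ha => h2 N hN a (Or.inr ha)⟩⟩
  tfae_finish

/-- The twisted central values exist. -/
theorem exists_values (N : ℕ) (a : ℕ → ℤ) (hN : 1 ≤ N) (ha : NewformOrTwist N a) (d : ℕ)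
    (hd : 1 ≤ d) (hdN : d.Coprime N) (χ : DirichletCharacter ℂ d) (hχ : χ.IsPrimitive) :
    ∃ L : ℂ, HasLVal a χ L :=
  exists_lval hN (eigen_family hN ha).toIsForm hd hdN hχ

end Pool.Agent.H50.TV
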