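import Pool.Agent.H50.TV.Eig
import Pool.Graph.R_pool_sql_team_seeded_3997aac3.Q127.SM.Final

/-!
# One parity of characters: the value bounds and the Shimura map
-/

set_option autoImplicit false

open Complex Filter Topology Matrix.SpecialLinearGroup MatrixGroups Finset DirichletCharacter

namespace Pool.Agent.H50.TV

open Pool.Agent.TH133.SH Pool.Agent.K4H67.TV

variable {N : ℕ} {a : ℕ → ℤ} {Ω₁ Ω₂ : ℂ}

/-- Only the even characters: there are constants `κ`, `C` such that, for all forms of the family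
`𝓕` of all levels `N` and all EVEN primitive characters `χ` whose conductor `d` is at most `D N` and
prime to `N`, the central value `L(f, χ, 1)` is at most `C N ^ κ Ω₁`. -/
def EvenValues (𝓕 : ℕ → (ℕ → ℤ) → Prop) (D : ℕ → ℕ) : Prop :=
  ∃ κ : ℝ, 0 < κ ∧ ∃ C : ℝ, 0 < C ∧ ∀ N : ℕ, 1 ≤ N → ∀ a : ℕ → ℤ, 𝓕 N a →
    ∀ Ω₁ Ω₂ : ℂ, IsBasis N a Ω₁ Ω₂ → ∀ d : ℕ, 1 ≤ d → d ≤ D N → d.Coprime N →
      ∀ χ : DirichletCharacter ℂ d, χ.IsPrimitive → χ.Even → ∀ L : ℂ, HasLVal a χ L →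
        ‖L‖ ≤ C * (N : ℝ) ^ κ * Ω₁.re

/-- Only the odd characters: the central value `L(f, χ, 1)` is at most `C N ^ κ Im(Ω₂)` for all
ODD primitive characters `χ` whose conductor `d` is at most `D N` and prime to `N`. -/
def OddValues (𝓕 : ℕ → (ℕ → ℤ) → Prop) (D : ℕ → ℕ) : Prop :=
  ∃ κ : ℝ, 0 < κ ∧ ∃ C : ℝ, 0 < C ∧ ∀ N : ℕ, 1 ≤ N → ∀ a : ℕ → ℤ, 𝓕 N a →
    ∀ Ω₁ Ω₂ : ℂ, IsBasis N a Ω₁ Ω₂ → ∀ d : ℕ, 1 ≤ d → d ≤ D N → d.Coprime N →
      ∀ χ : DirichletCharacter ℂ d, χ.IsPrimitive → χ.Odd → ∀ L : ℂ, HasLVal a χ L →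
        ‖L‖ ≤ C * (N : ℝ) ^ κ * Ω₂.im

/-- From the even central values to the real parts of the boundary values. -/
lemma Uv_re_bound (hN : 1 ≤ N) (ha : Eigen N a) {D : ℕ} {X : ℝ} (hX : 0 ≤ X)
    (h : ∀ d : ℕ, 1 ≤ d → d ≤ D → d.Coprime N → ∀ χ : DirichletCharacter ℂ d, χ.IsPrimitive →
      χ.Even → ∀ L : ℂ, HasLVal a χ L → ‖L‖ ≤ X)
    (m : ℕ) (hm : 0 < m) (hmD : m ≤ D) (hmN : m.Coprime N) (b : ℕ) (hbm : b.Coprime m) :
    |(Uv a ((b : ℚ) / m)).re| ≤ (m : ℝ) ^ 3 * (√(D : ℝ) * X) := by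
  have hf := ha.toIsForm
  have hR := val_bound (heckeR hN ha (fun ℓ h1 h2 => abs_le hN ha h1 h2)) (D := D)
    (X := √(D : ℝ) * X) (by positivity) (by
      intro e _ heD heN χ hχ
      rcases χ.even_or_odd with hc | hc
      · rw [(Sm_even hN hf heN χ hc).1]
        obtain ⟨L, hL⟩ := exists_lval hN hf (NeZero.pos e) heN (prim_inv hχ)
        have h1 := (lval hN hf heN (prim_inv hχ)).1 hL
        rw [inv_inv] at h1
        have h2 := h e (NeZero.pos e) heD heN χ⁻¹ (prim_inv hχ) (even_inv hc) L hL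
        rw [← h1, norm_mul, norm_gauss hχ]
        have h3 : √(e : ℝ) ≤ √(D : ℝ) := Real.sqrt_le_sqrt (by exact_mod_cast heD)
        exact mul_le_mul h3 h2 (norm_nonneg _) (Real.sqrt_nonneg _)
      · rw [(Sm_odd hN hf heN χ hc).1, norm_zero]
        positivity) m hm hmD hmN b hbm
  unfold Rv at hR
  rw [Complex.norm_real, Real.norm_eq_abs] at hR
  exact hR

/-- From the odd central values to the imaginary parts of the boundary values. -/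
lemma Uv_im_bound (hN : 1 ≤ N) (ha : Eigen N a) {D : ℕ} {X : ℝ} (hX : 0 ≤ X)
    (h : ∀ d : ℕ, 1 ≤ d → d ≤ D → d.Coprime N → ∀ χ : DirichletCharacter ℂ d, χ.IsPrimitive →
      χ.Odd → ∀ L : ℂ, HasLVal a χ L → ‖L‖ ≤ X)
    (m : ℕ) (hm : 0 < m) (hmD : m ≤ D) (hmN : m.Coprime N) (b : ℕ) (hbm : b.Coprime m) :
    |(Uv a ((b : ℚ) / m)).im| ≤ (m : ℝ) ^ 3 * (√(D : ℝ) * X) := by
  have hf := ha.toIsForm
  have hI := val_bound (heckeI hN ha (fun ℓ h1 h2 => abs_le hN ha h1 h2)) (D := D)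
    (X := √(D : ℝ) * X) (by positivity) (by
      intro e _ heD heN χ hχ
      rcases χ.even_or_odd with hc | hc
      · rw [(Sm_even hN hf heN χ hc).2, norm_zero]
        positivity
      · rw [(Sm_odd hN hf heN χ hc).2]
        obtain ⟨L, hL⟩ := exists_lval hN hf (NeZero.pos e) heN (prim_inv hχ)
        have h1 := (lval hN hf heN (prim_inv hχ)).1 hL
        rw [inv_inv] at h1
        have h2 := h e (NeZero.pos e) heD heN χ⁻¹ (prim_inv hχ) (odd_inv hc) L hL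
        rw [← h1, norm_mul, norm_gauss hχ]
        have h3 : √(e : ℝ) ≤ √(D : ℝ) := Real.sqrt_le_sqrt (by exact_mod_cast heD)
        exact mul_le_mul h3 h2 (norm_nonneg _) (Real.sqrt_nonneg _)) m hm hmD hmN b hbm
  unfold Iv at hI
  rw [Complex.norm_real, Real.norm_eq_abs] at hI
  exact hI

lemma pow_step {D : ℕ} {m₀ : ℕ} (hm : m₀ ≤ D) (hD : 1 ≤ D) {X : ℝ} (hX : 0 ≤ X) :
    (m₀ : ℝ) ^ 3 * (√(D : ℝ) * X) + ((1 : ℕ) : ℝ) ^ 3 * (√(D : ℝ) * X) ≤ 2 * (D : ℝ) ^ 4 * X := by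
  have hDr : (1 : ℝ) ≤ D := by exact_mod_cast hD
  have hm3r : (m₀ : ℝ) ≤ D := by exact_mod_cast hm
  have hsq : √(D : ℝ) ≤ D := by
    rw [Real.sqrt_le_left (by linarith)]
    nlinarith
  have h1 : (m₀ : ℝ) ^ 3 * (√(D : ℝ) * X) ≤ (D : ℝ) ^ 3 * (D * X) := by gcongr
  have h2 : ((1 : ℕ) : ℝ) ^ 3 * (√(D : ℝ) * X) ≤ (D : ℝ) ^ 3 * (D * X) := by
    push_cast
    gcongr
  calc _ ≤ (D : ℝ) ^ 3 * (D * X) + (D : ℝ) ^ 3 * (D * X) := add_le_add h1 h2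
    _ = _ := by ring

lemma Hs_lower_zero (ha : IsForm N a) {g : SL(2, ℤ)} (h0 : g 1 0 = 0) : Hs a g = 0 := by
  have h2 := (isCuspHom ha Complex.reLm).zero_of_lower (g := g) h0
  have h3 := (isCuspHom ha Complex.imLm).zero_of_lower (g := g) h0
  exact Complex.ext h2 h3

/-- Even central values control the real part of the Shimura map on the small matrices. -/
lemma re_small (hN : 2 ≤ N) (ha : Eigen N a) {X : ℝ} (hX : 0 ≤ X)
    (h : ∀ d : ℕ, 1 ≤ d → d ≤ condBound N → d.Coprime N → ∀ χ : DirichletCharacter ℂ d,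
      χ.IsPrimitive → χ.Even → ∀ L : ℂ, HasLVal a χ L → ‖L‖ ≤ X)
    {g : SL(2, ℤ)} (hg : InG N g) (hs : |g 1 0| ≤ smallEntry N) :
    |(Hs a g).re| ≤ 2 * (condBound N : ℝ) ^ 4 * X := by
  have hf := ha.toIsForm
  by_cases h0 : g 1 0 = 0
  · rw [Hs_lower_zero hf h0]
    simp only [Complex.zero_re, abs_zero]
    positivity
  · obtain ⟨m₀, b₀, hm0, hm1, hm2, hb0, hH⟩ := exists_half hN hf (g := g) hg h0
    have hm3 : m₀ ≤ condBound N := by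
      have h1 : (2 * (m₀ : ℤ)) ≤ smallEntry N := hm1.trans hs
      have h2 : 2 * m₀ ≤ smallEntry N := by exact_mod_cast h1
      have h3 : smallEntry N ≤ 2 * condBound N := smallEntry_le
      omega
    have hD1 : 1 ≤ condBound N := hm0.trans_le hm3
    have key := Uv_re_bound (by omega) ha hX h
    have k1 := key m₀ hm0 hm3 hm2 b₀ hb0
    have k2 := key 1 one_pos hD1 (Nat.coprime_one_left N) 0 (Nat.coprime_one_right 0)
    rw [show ((0 : ℕ) : ℚ) / ((1 : ℕ) : ℚ) = 0 by norm_num] at k2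
    rw [hH, Complex.sub_re]
    exact ((abs_sub _ _).trans (add_le_add k1 k2)).trans (pow_step hm3 hD1 hX)

/-- Odd central values control the imaginary part of the Shimura map on the small matrices. -/
lemma im_small (hN : 2 ≤ N) (ha : Eigen N a) {X : ℝ} (hX : 0 ≤ X)
    (h : ∀ d : ℕ, 1 ≤ d → d ≤ condBound N → d.Coprime N → ∀ χ : DirichletCharacter ℂ d,
      χ.IsPrimitive → χ.Odd → ∀ L : ℂ, HasLVal a χ L → ‖L‖ ≤ X)
    {g : SL(2, ℤ)} (hg : InG N g) (hs : |g 1 0| ≤ smallEntry N) :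
    |(Hs a g).im| ≤ 2 * (condBound N : ℝ) ^ 4 * X := by
  have hf := ha.toIsForm
  by_cases h0 : g 1 0 = 0
  · rw [Hs_lower_zero hf h0]
    simp only [Complex.zero_im, abs_zero]
    positivity
  · obtain ⟨m₀, b₀, hm0, hm1, hm2, hb0, hH⟩ := exists_half hN hf (g := g) hg h0
    have hm3 : m₀ ≤ condBound N := by
      have h1 : (2 * (m₀ : ℤ)) ≤ smallEntry N := hm1.trans hs
      have h2 : 2 * m₀ ≤ smallEntry N := by exact_mod_cast h1
      have h3 : smallEntry N ≤ 2 * condBound N := smallEntry_le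
      omega
    have hD1 : 1 ≤ condBound N := hm0.trans_le hm3
    have key := Uv_im_bound (by omega) ha hX h
    have k1 := key m₀ hm0 hm3 hm2 b₀ hb0
    have k2 := key 1 one_pos hD1 (Nat.coprime_one_left N) 0 (Nat.coprime_one_right 0)
    rw [show ((0 : ℕ) : ℚ) / ((1 : ℕ) : ℚ) = 0 by norm_num] at k2
    rw [hH, Complex.sub_im]
    exact ((abs_sub _ _).trans (add_le_add k1 k2)).trans (pow_step hm3 hD1 hX)

/-- The bound for `2 D ^ 4 X` as a power of the level. -/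
lemma const_le (hN : 1 ≤ N) {C κ : ℝ} (hC : 0 < C) :
    2 * (condBound N : ℝ) ^ 4 * (C * (N : ℝ) ^ κ) ≤ 2 * 9 ^ 4 * C * (N : ℝ) ^ (κ + 28) := by
  have hN0 : (0 : ℝ) < N := by exact_mod_cast hN
  have h10 : (condBound N : ℝ) ≤ 9 * (N : ℝ) ^ 7 := by exact_mod_cast condBound_le hN
  have h11 : (N : ℝ) ^ (κ + 28) = (N : ℝ) ^ κ * (N : ℝ) ^ 28 := by
    rw [Real.rpow_add hN0]
    congr 1
    exact_mod_cast Real.rpow_natCast (N : ℝ) 28
  rw [h11]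
  calc 2 * (condBound N : ℝ) ^ 4 * (C * (N : ℝ) ^ κ)
      ≤ 2 * (9 * (N : ℝ) ^ 7) ^ 4 * (C * (N : ℝ) ^ κ) := by gcongr
    _ = 2 * 9 ^ 4 * C * ((N : ℝ) ^ κ * (N : ℝ) ^ 28) := by ring

/-- The real part of the Shimura map is at most `C N ^ κ Ω₁` on the small matrices. -/
def ReSmall (𝓕 : ℕ → (ℕ → ℤ) → Prop) : Prop :=
  ∃ κ : ℝ, 0 < κ ∧ ∃ C : ℝ, 0 < C ∧ ∀ N : ℕ, 1 ≤ N → ∀ a : ℕ → ℤ, 𝓕 N a →
    ∀ Ω₁ Ω₂ : ℂ, IsBasis N a Ω₁ Ω₂ → ∀ γ : SL(2, ℤ), InG N γ → |γ 1 0| ≤ smallEntry N →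
      |(Hs a γ).re| ≤ C * (N : ℝ) ^ κ * Ω₁.re

theorem re_of_even {𝓕 : ℕ → (ℕ → ℤ) → Prop} (hF : ∀ N a, 1 ≤ N → 𝓕 N a → Eigen N a)
    (h : EvenValues 𝓕 condBound) : ReSmall 𝓕 := by
  obtain ⟨κ, hκ, C, hC, h⟩ := h
  refine ⟨κ + 28, by positivity, 2 * 9 ^ 4 * C, by positivity, ?_⟩
  intro N hN a ha Ω₁ Ω₂ hb γ hγ hs
  have he := hF N a hN ha
  have hN2 := two_le hN he.toIsForm hb
  have h₁ := hb.re₁
  have h1 := re_small hN2 he (X := C * (N : ℝ) ^ κ * Ω₁.re) (by positivity)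
    (fun d h1 h2 h3 χ h4 h5 L h6 => h N hN a ha Ω₁ Ω₂ hb d h1 h2 h3 χ h4 h5 L h6) hγ hs
  refine h1.trans ?_
  rw [← mul_assoc]
  exact mul_le_mul_of_nonneg_right (const_le hN hC) h₁.le

open Pool.Agent.Q127.SM in
theorem second_of_odd {𝓕 : ℕ → (ℕ → ℤ) → Prop} (hF : ∀ N a, 1 ≤ N → 𝓕 N a → Eigen N a)
    (h : OddValues 𝓕 condBound) : SmallQuestion 𝓕 SecondBound := by
  obtain ⟨κ, hκ, C, hC, h⟩ := h
  refine ⟨κ + 28, by positivity, 2 * 9 ^ 4 * C, by positivity, ?_⟩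
  intro N hN a ha Ω₁ Ω₂ hb p q r s hd hr hs m n hmn
  have he := hF N a hN ha
  have hN2 := two_le hN he.toIsForm hb
  have h₂ := hb.im₂
  have h1 := im_small hN2 he (X := C * (N : ℝ) ^ κ * Ω₂.im) (by positivity)
    (fun d h1 h2 h3 χ h4 h5 L h6 => h N hN a ha Ω₁ Ω₂ hb d h1 h2 h3 χ h4 h5 L h6)
    (g := mk p q r s hd) hr hs
  have hH : Hs a (mk p q r s hd) = (m : ℂ) * Ω₁ + (n : ℂ) * Ω₂ := hmn
  have him : (Hs a (mk p q r s hd)).im = n * Ω₂.im := by rw [hH]; simp [hb.im₁]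
  rw [him, abs_mul, abs_of_pos h₂, ← mul_assoc] at h1
  exact (le_of_mul_le_mul_right h1 h₂).trans (const_le hN hC)

end Pool.Agent.H50.TV
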