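import Pool.Agent.H50.TV.Par
import Pool.Agent.H50.TV.Conv

/-!
# One parity of characters is enough
-/

set_option autoImplicit false

open Complex Filter Topology Matrix.SpecialLinearGroup MatrixGroups Finset DirichletCharacter

namespace Pool.Agent.H50.TV

open Pool.Agent.TH133.SH Pool.Agent.K4H67.TV Pool.Agent.Q127.SM

variable {N : ℕ} {a a' : ℕ → ℤ} {Ω₁ Ω₂ Ω₁' Ω₂' : ℂ}

/-- The twists are normalised eigenforms. -/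
lemma eigen_twisted (hN : 1 ≤ N) (h : Twisted N a) : Eigen N a := by
  have hf : IsForm N a := h.isForm lemmas.twf hN
  obtain ⟨N₀, a₀, q, χ, ha₀, hq, hqN, rfl, hχ, htw⟩ := h
  refine ⟨hf, ?_, ?_⟩
  · have h1 := htw 1
    rw [ha₀.one] at h1
    simp at h1
    exact_mod_cast h1
  · intro ℓ hℓ hℓN n
    have hℓN₀ : ¬ ℓ ∣ N₀ := fun hc => hℓN (hc.mul_right _)
    have hℓq : ¬ ℓ ∣ q := fun hc => hℓN ((hc.trans (dvd_pow_self q two_ne_zero)).mul_left _)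
    have hcop : ℓ.Coprime q := (Nat.Prime.coprime_iff_not_dvd hℓ).2 hℓq
    have hu : IsUnit (ℓ : ZMod q) := (ZMod.isUnit_iff_coprime ℓ q).2 hcop
    have hsq := chi_sq hχ hu
    have h1 := congrArg (fun x : ℤ => (x : ℂ)) (ha₀.hecke ℓ hℓ hℓN₀ n)
    push_cast at h1
    have h2 : ((a (ℓ * n) + (if ℓ ∣ n then (ℓ : ℤ) * a (n / ℓ) else 0) : ℤ) : ℂ) =
        ((a ℓ * a n : ℤ) : ℂ) := by
      push_cast
      rw [htw (ℓ * n), htw ℓ, htw n]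
      push_cast
      rw [map_mul]
      split_ifs at h1 ⊢ with hd
      · obtain ⟨m, rfl⟩ := hd
        rw [Nat.mul_div_cancel_left m hℓ.pos] at h1 ⊢
        rw [htw m]
        push_cast
        rw [map_mul]
        have e1 : χ (m : ZMod q) = χ (ℓ : ZMod q) * (χ (ℓ : ZMod q) * χ (m : ZMod q)) := by
          rw [← mul_assoc, hsq, one_mul]
        calc χ (ℓ : ZMod q) * (χ (ℓ : ZMod q) * χ (m : ZMod q)) * (a₀ (ℓ * (ℓ * m)) : ℂ) +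
              (ℓ : ℂ) * (χ (m : ZMod q) * (a₀ m : ℂ))
            = χ (ℓ : ZMod q) * (χ (ℓ : ZMod q) * χ (m : ZMod q)) *
              ((a₀ (ℓ * (ℓ * m)) : ℂ) + (ℓ : ℂ) * (a₀ m : ℂ)) := by
              rw [show (ℓ : ℂ) * (χ (m : ZMod q) * (a₀ m : ℂ)) =
                χ (m : ZMod q) * ((ℓ : ℂ) * (a₀ m : ℂ)) by ring]
              nth_rewrite 2 [e1]
              ring
          _ = _ := by
              rw [h1]
              ring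
      · rw [add_zero] at h1 ⊢
        rw [h1]
        ring
    exact_mod_cast h2

lemma eigen_family (hN : 1 ≤ N) (h : NewformOrTwist N a) : Eigen N a :=
  h.elim Eigen.of_newform (eigen_twisted hN)

/-- The real parts for the twists give the second coordinate. -/
lemma second_of_re {q : ℕ} (hN : 1 ≤ N) (ha : IsNewform N a) (hq : q.Prime) [NeZero q]
    (hqN : ¬ q ∣ N) {χ : DirichletCharacter ℂ q} (h : OddQuadratic q χ)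
    (htw : ∀ n : ℕ, (a' n : ℂ) = χ (n : ZMod q) * (a n : ℂ))
    (hb : IsBasis N a Ω₁ Ω₂) {B : ℝ} (hB0 : 0 ≤ B)
    (hB : ∀ Ω₁' Ω₂' : ℂ, IsBasis (N * q ^ 2) a' Ω₁' Ω₂' → ∀ γ : SL(2, ℤ),
      InG (N * q ^ 2) γ → Bounded (((N * q ^ 2 : ℕ) : ℤ) ^ 2) γ → |Lre Ω₁' (Hs a' γ)| ≤ B)
    {γ : SL(2, ℤ)} (hγ : InG N γ) (hX : Bounded ((N : ℤ) ^ 2) γ) :
    |L₂ Ω₂ (Hs a γ)| ≤ 2 * ((q + 1) * q * q) * (2 * B * ((N * q ^ 2 : ℕ) : ℝ) *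
      (16 * (N : ℝ) ^ 6 * (q : ℝ) ^ 6)) := by
  have H := lemmas
  have hM : 1 ≤ N * q ^ 2 := Nat.one_le_iff_ne_zero.2 (by
    have := hq.ne_zero
    positivity)
  set M := N * q ^ 2 with hMdef
  have hM1 : (1 : ℝ) ≤ (M : ℝ) := by exact_mod_cast hM
  have hN1 : (1 : ℝ) ≤ (N : ℝ) := by exact_mod_cast hN
  have hq1 : (1 : ℝ) ≤ (q : ℝ) := by exact_mod_cast hq.one_lt.le
  have hK : (1 : ℝ) ≤ 16 * (N : ℝ) ^ 6 * (q : ℝ) ^ 6 := by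
    have h1 : (1 : ℝ) ≤ (N : ℝ) ^ 6 := one_le_pow₀ hN1
    have h2 : (1 : ℝ) ≤ (q : ℝ) ^ 6 := one_le_pow₀ hq1
    nlinarith
  have ha' : IsForm M a' := H.twf M q a a' χ hM
    (isForm_raise ha.toIsForm (dvd_mul_right N (q ^ 2))) (dvd_mul_left (q ^ 2) N) h htw
  have hc1 := comb_twist hq ha.toIsForm h htw
  have hc2 := comb_inv H.st1 H.st2 H.trf H.co1 H.co2 H.twf hN ha.toIsForm hq hqN
    (ha.hecke q hq hqN) h htw
  have ht1 : (gs χ).im ≠ 0 := abs_pos.1 (gs_im_pos h)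
  have ht2 := t_ne H hN ha hq hqN h
  rw [← hMdef] at hc1 hc2
  obtain ⟨Ω₁', Ω₂', hb'⟩ := comb_basis ha.toIsForm ha' hc2 hc1 ht2 ht1 hb
  have hcast : ∀ δ : SL(2, ℤ), |δ 1 0| ≤ 16 * (N : ℤ) ^ 4 * (q : ℤ) ^ 6 * (N : ℤ) ^ 2 →
      |((δ 1 0 : ℤ) : ℝ)| ≤ 16 * (N : ℝ) ^ 6 * (q : ℝ) ^ 6 := by
    intro δ hδ
    have h1 : |((δ 1 0 : ℤ) : ℝ)| ≤ 16 * (N : ℝ) ^ 4 * (q : ℝ) ^ 6 * (N : ℝ) ^ 2 := by
      exact_mod_cast hδ
    refine h1.trans (le_of_eq ?_)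
    ring
  have g1 : ∀ δ : SL(2, ℤ), InG M δ → |δ 1 0| ≤ 16 * (N : ℤ) ^ 4 * (q : ℤ) ^ 6 * (N : ℤ) ^ 2 →
      |(Hs a' δ).re| ≤ (2 * B * M * (16 * (N : ℝ) ^ 6 * (q : ℝ) ^ 6)) * Ω₁'.re := fun δ hδ hδ' =>
    (Lre_iff hb' _ _).1 (grow hM ha' (Lre Ω₁') (hB Ω₁' Ω₂' hb') hK hδ (hcast δ hδ'))
  have r1 := comb_im ha.toIsForm ha' hc2 ht2 hb hb' (by positivity) g1 hγ hX
  refine r1.trans (le_of_eq ?_)
  rw [Fintype.card_prod, Fintype.card_prod, ZMod.card, Fintype.card_fin, Fintype.card_fin]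
  push_cast
  ring

/-- The real parts on the small matrices give the real parts on the matrices with entries at most
`N ^ 2`. -/
lemma re_up {𝓕 : ℕ → (ℕ → ℤ) → Prop} (hF : ∀ N a, 1 ≤ N → 𝓕 N a → IsForm N a)
    (h : ReSmall 𝓕) : ∃ κ : ℝ, 0 < κ ∧ ∃ C : ℝ, 0 < C ∧ ∀ N : ℕ, 1 ≤ N → ∀ a : ℕ → ℤ, 𝓕 N a →
    ∀ Ω₁ Ω₂ : ℂ, IsBasis N a Ω₁ Ω₂ → ∀ γ : SL(2, ℤ), InG N γ → Bounded ((N : ℤ) ^ 2) γ →
      |Lre Ω₁ (Hs a γ)| ≤ C * (N : ℝ) ^ κ := by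
  obtain ⟨κ, hκ, C, hC, h⟩ := h
  refine ⟨κ + 2, by positivity, 12 * C, by positivity, ?_⟩
  intro N hN a ha Ω₁ Ω₂ hb γ hγ hB
  have hf := hF N a hN ha
  have h1 := small_up hN hf (Lre Ω₁) (X := C * (N : ℝ) ^ κ) (fun γ h1 h2 =>
    (Lre_iff hb _ _).2 (h N hN a ha Ω₁ Ω₂ hb γ h1 h2)) hγ hB
  rw [rpow_two_add hN] at h1
  exact h1

/-- **Real parts for the newforms and the twists give Q1.** -/
theorem Q1_of_re (h : ReSmall NewformOrTwist) : EntriesAtMost 2 := by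
  have H := lemmas
  have hF : ∀ N a, 1 ≤ N → NewformOrTwist N a → IsForm N a :=
    fun N a hN ha => (eigen_family hN ha).toIsForm
  obtain ⟨κ, hκ, C, hC, h⟩ := re_up hF h
  refine ⟨3 * κ + 18, by positivity, 335544321 * C * (16 : ℝ) ^ κ, by positivity, ?_⟩
  intro N hN a ha Ω₁ Ω₂ hb p q r s hd hr hp hq hr' hs m n hmn
  obtain ⟨ℓ, hℓ, hℓ4, hℓN, hℓle⟩ := H.prm N hN
  obtain ⟨χ, hχ⟩ := H.chr ℓ hℓ hℓ4
  have : NeZero ℓ := ⟨hℓ.ne_zero⟩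
  obtain ⟨a', htw⟩ := exists_twist hχ a
  have hM : 1 ≤ N * ℓ ^ 2 := Nat.one_le_iff_ne_zero.2 (by
    have := hℓ.ne_zero
    positivity)
  have hcl : NewformOrTwist (N * ℓ ^ 2) a' :=
    Or.inr ⟨N, a, ℓ, χ, ha, hℓ, hℓN, rfl, hχ, htw⟩
  set γ := mk p q r s hd with hγdef
  have hγB : Bounded ((N : ℤ) ^ 2) γ := bounded_mk hd hp hq hr' hs
  have h0 := h N hN a (Or.inl ha) Ω₁ Ω₂ hb γ hr hγB
  have key := second_of_re hN ha hℓ hℓN hχ htw hb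
    (B := C * ((N * ℓ ^ 2 : ℕ) : ℝ) ^ κ) (by positivity)
    (fun w₁ w₂ hw δ hδ hδ' => h (N * ℓ ^ 2) hM a' hcl w₁ w₂ hw δ hδ hδ') (γ := γ) hr hγB
  have k3 := first_bound hb ((Lre_iff hb _ _).1 h0) key
  have hH : Hs a γ = (m : ℂ) * Ω₁ + (n : ℂ) * Ω₂ := hmn
  rw [hH, L₂_apply hb] at key
  rw [hH, L₁_apply hb] at k3
  have hcon := constants hN hℓle hC hκ rfl rfl
  have hpos2 : 0 ≤ C * (N : ℝ) ^ κ := by positivity
  constructor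
  · refine (k3.trans ?_).trans hcon
    linarith
  · refine (key.trans ?_).trans hcon
    linarith

end Pool.Agent.H50.TV
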